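import Mathlib

namespace Pool.Agent.Results.MP_a85856_gt.Grid

open scoped Pointwise

/-- The `ℓ_p` norm on `ℝ^m`. -/
noncomputable def lpNorm (p : ℝ) {m : ℕ} (x : Fin m → ℝ) : ℝ := (∑ i, |x i| ^ p) ^ (1 / p)

/-- The `ℓ_p` unit ball. -/
def ball (p : ℝ) (n : ℕ) : Set (Fin n → ℝ) := {x | lpNorm p x ≤ 1}

/-- The circumradius of `K` with respect to `C`: the least `λ ≥ 0` with `K ⊆ t + λ C` for some `t`. -/
noncomputable def circumradius {n : ℕ} (K C : Set (Fin n → ℝ)) : ℝ :=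
  sInf {l : ℝ | 0 ≤ l ∧ ∃ t : Fin n → ℝ, K ⊆ t +ᵥ (l • C)}

/-- A convex body: nonempty, compact, convex. -/
def IsBody {n : ℕ} (K : Set (Fin n → ℝ)) : Prop := K.Nonempty ∧ IsCompact K ∧ Convex ℝ K

theorem lp4 {m : ℕ} (x : Fin m → ℝ) : lpNorm 4 x = (∑ i, x i ^ 4) ^ (1 / 4 : ℝ) := by
  unfold lpNorm
  congr 1
  refine Finset.sum_congr rfl fun i _ => ?_
  rw [show (4 : ℝ) = ((4 : ℕ) : ℝ) by norm_num, Real.rpow_natCast, pow_abs]
  exact abs_of_nonneg (by positivity)

theorem mem_ball {n : ℕ} (x : Fin n → ℝ) : x ∈ ball 4 n ↔ ∑ i, x i ^ 4 ≤ 1 := by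
  change lpNorm 4 x ≤ 1 ↔ _
  rw [lp4, one_div, Real.rpow_inv_le_iff_of_pos (by positivity) (by norm_num) (by norm_num),
    Real.one_rpow]

theorem of_mem {n : ℕ} {x t : Fin n → ℝ} {l : ℝ} (h : x ∈ t +ᵥ (l • ball 4 n)) :
    ∑ i, (x i - t i) ^ 4 ≤ l ^ 4 := by
  obtain ⟨_, ⟨c, hc, rfl⟩, rfl⟩ := h
  rw [mem_ball] at hc
  have : ∑ i, ((t +ᵥ l • c) i - t i) ^ 4 = l ^ 4 * ∑ i, c i ^ 4 := by
    rw [Finset.mul_sum]
    refine Finset.sum_congr rfl fun i _ => ?_
    simp [mul_pow]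
  rw [this]
  exact mul_le_of_le_one_right (by positivity) hc

theorem to_mem {n : ℕ} {x t : Fin n → ℝ} {l : ℝ} (hl : 0 < l)
    (h : ∑ i, (x i - t i) ^ 4 ≤ l ^ 4) : x ∈ t +ᵥ (l • ball 4 n) := by
  refine ⟨x - t, ⟨l⁻¹ • (x - t), ?_, by simp [smul_smul, hl.ne']⟩, by simp⟩
  rw [mem_ball]
  have : ∑ i, (l⁻¹ • (x - t)) i ^ 4 = (l ^ 4)⁻¹ * ∑ i, (x i - t i) ^ 4 := by
    rw [Finset.mul_sum]
    refine Finset.sum_congr rfl fun i _ => ?_
    simp [mul_pow]
  rw [this, inv_mul_le_iff₀ (by positivity)]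
  simpa using h

theorem conv {n : ℕ} (t : Fin n → ℝ) (L : ℝ) :
    Convex ℝ {x : Fin n → ℝ | ∑ i, (x i - t i) ^ 4 ≤ L} := by
  intro x hx y hy a b ha hb hab
  simp only [Set.mem_ofPred_eq] at *
  calc ∑ i, ((a • x + b • y) i - t i) ^ 4
      ≤ ∑ i, (a * (x i - t i) ^ 4 + b * (y i - t i) ^ 4) := by
        refine Finset.sum_le_sum fun i _ => ?_
        have := (Even.convexOn_pow (𝕜 := ℝ) (by decide : Even 4)).2 (Set.mem_univ (x i - t i))
          (Set.mem_univ (y i - t i)) ha hb hab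
        simp only [smul_eq_mul] at this
        convert this using 2
        simp only [Pi.add_apply, Pi.smul_apply, smul_eq_mul]
        linear_combination (t i) * hab
    _ = a * ∑ i, (x i - t i) ^ 4 + b * ∑ i, (y i - t i) ^ 4 := by
        rw [Finset.sum_add_distrib, Finset.mul_sum, Finset.mul_sum]
    _ ≤ a * L + b * L := by gcongr
    _ = L := by rw [← add_mul, hab, one_mul]

/-- Indicator vector of the fibre of `g` over `i`. -/
def ind {n : ℕ} (g : Fin n → Fin 65) (i : Fin 65) : Fin n → ℝ := fun c => if g c = i then 1 else 0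

def row (c : Fin (65 * 65)) : Fin 65 := (finProdFinEquiv.symm c).1
def col (c : Fin (65 * 65)) : Fin 65 := (finProdFinEquiv.symm c).2

theorem sum_grid (f : Fin 65 → Fin 65 → ℝ) :
    ∑ c, f (row c) (col c) = ∑ a, ∑ b, f a b := by
  rw [← Fintype.sum_prod_type']
  exact Fintype.sum_equiv finProdFinEquiv.symm _ _ fun _ => rfl

theorem sum_ite (i : Fin 65) (u v : ℝ) : ∑ a : Fin 65, (if a = i then u else v) = u + 64 * v := by
  have : ∀ a : Fin 65, (if a = i then u else v) = v + if a = i then u - v else 0 := by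
    intro a; split_ifs <;> ring
  simp only [this, Finset.sum_add_distrib, Finset.sum_ite_eq', Finset.mem_univ, if_true,
    Finset.sum_const, Finset.card_univ, Fintype.card_fin, nsmul_eq_mul]
  push_cast; ring

theorem lower (g : Fin (65 * 65) → Fin 65) (hg : ∀ i, ∑ c, (ind g i c - 0) ^ 4 ≤ 3 ^ 4) :
    (12 / 5 : ℝ) ≤ circumradius (convexHull ℝ (Set.range (ind g))) (ball 4 _) := by
  refine le_csInf ⟨3, by norm_num, 0, fun x hx => to_mem (by norm_num) ?_⟩ ?_
  · exact convexHull_min (by rintro _ ⟨i, rfl⟩; exact hg i) (conv 0 (3 ^ 4)) hx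
  · rintro l ⟨hl, t, ht⟩
    have h1 : ∀ i, ∑ c, (ind g i c - t c) ^ 4 ≤ l ^ 4 :=
      fun i => of_mem (ht (subset_convexHull _ _ ⟨i, rfl⟩))
    have h2 : ∑ i, ∑ c, (ind g i c - t c) ^ 4 ≤ 65 * l ^ 4 := by
      refine (Finset.sum_le_sum fun i _ => h1 i).trans ?_
      simp
    rw [Finset.sum_comm] at h2
    have h3 : ∀ c, (64 / 125 : ℝ) ≤ ∑ i, (ind g i c - t c) ^ 4 := by
      intro c
      have : ∀ i, (ind g i c - t c) ^ 4 = if i = g c then (1 - t c) ^ 4 else (t c) ^ 4 := by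
        intro i
        unfold ind
        by_cases h : g c = i
        · simp [h]
        · rw [if_neg h, if_neg (Ne.symm h)]; ring
      simp only [this, sum_ite]
      nlinarith [sq_nonneg ((t c - 1 / 5) * (t c + 1 / 5)), sq_nonneg (t c - 1 / 5),
        sq_nonneg ((t c - 1 / 5) * (t c)), sq_nonneg ((t c - 1 / 5) * (t c + 1))]
    have h4 : ∑ _c : Fin (65 * 65), (64 / 125 : ℝ) ≤ 65 * l ^ 4 :=
      (Finset.sum_le_sum fun c _ => h3 c).trans h2
    simp only [Finset.sum_const, Finset.card_univ, Fintype.card_fin, nsmul_eq_mul] at h4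
    refine le_of_not_gt fun hlt => ?_
    have : l ^ 4 < (12 / 5) ^ 4 := pow_lt_pow_left₀ hlt hl (by norm_num)
    norm_num at h4 this
    linarith

theorem upper : circumradius (convexHull ℝ (Set.range (ind row)) + convexHull ℝ (Set.range (ind col)))
    (ball 4 _) ≤ 57 / 20 := by
  refine csInf_le ⟨0, fun l hl => hl.1⟩ ⟨by norm_num, fun _ => 1 / 4, fun x hx =>
    to_mem (by norm_num) ?_⟩
  rw [← convexHull_add] at hx
  refine convexHull_min ?_ (conv (fun _ => 1 / 4) ((57 / 20) ^ 4)) hx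
  rintro _ ⟨_, ⟨i, rfl⟩, _, ⟨j, rfl⟩, rfl⟩
  simp only [Set.mem_ofPred_eq, Pi.add_apply, ind]
  rw [sum_grid fun a b => ((if a = i then 1 else 0) + (if b = j then 1 else 0) - 1 / 4 : ℝ) ^ 4]
  have : ∀ a b : Fin 65, ((if a = i then 1 else 0) + (if b = j then 1 else 0) - 1 / 4 : ℝ) ^ 4 =
      if b = j then (if a = i then (7 / 4) ^ 4 else (3 / 4) ^ 4)
      else (if a = i then (3 / 4) ^ 4 else (1 / 4) ^ 4) := by
    intro a b; split_ifs <;> norm_num
  simp only [this, sum_ite, Finset.sum_add_distrib, ← Finset.mul_sum]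
  norm_num

theorem result : ∃ (p : ℝ) (n j : ℕ) (K : Fin j → Set (Fin n → ℝ)),
    2 < p ∧ 1 ≤ n ∧ 1 ≤ j ∧ (∀ i, IsBody (K i)) ∧
    circumradius (∑ i, K i) (ball p n) < lpNorm p (fun i => circumradius (K i) (ball p n)) := by
  have body : ∀ g : Fin (65 * 65) → Fin 65, IsBody (convexHull ℝ (Set.range (ind g))) := fun g =>
    ⟨(Set.range_nonempty _).mono (subset_convexHull _ _),
      (Set.finite_range _).isCompact_convexHull ℝ, convex_convexHull _ _⟩
  refine ⟨4, 65 * 65, 2, ![convexHull ℝ (Set.range (ind row)), convexHull ℝ (Set.range (ind col))],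
    by norm_num, by norm_num, by norm_num, fun i => by fin_cases i <;> exact body _, ?_⟩
  have h1 := lower row fun i => by
    simp only [ind]
    rw [sum_grid fun a _ => ((if a = i then 1 else 0) - 0 : ℝ) ^ 4]
    have : ∀ a : Fin 65, ((if a = i then 1 else 0) - 0 : ℝ) ^ 4 = if a = i then 1 else 0 := by
      intro a; split_ifs <;> norm_num
    simp only [this, Finset.sum_const, Finset.card_univ, Fintype.card_fin, nsmul_eq_mul,
      ← Finset.mul_sum, sum_ite]
    norm_num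
  have h2 := lower col fun i => by
    simp only [ind]
    rw [sum_grid fun _ a => ((if a = i then 1 else 0) - 0 : ℝ) ^ 4]
    have : ∀ a : Fin 65, ((if a = i then 1 else 0) - 0 : ℝ) ^ 4 = if a = i then 1 else 0 := by
      intro a; split_ifs <;> norm_num
    simp only [this, Finset.sum_const, Finset.card_univ, Fintype.card_fin, nsmul_eq_mul, sum_ite]
    norm_num
  rw [lp4, Fin.sum_univ_two, Fin.sum_univ_two]
  simp only [Matrix.cons_val_zero, Matrix.cons_val_one]
  refine upper.trans_lt ?_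
  rw [one_div, Real.lt_rpow_inv_iff_of_pos (by norm_num) (by positivity) (by norm_num)]
  have e1 := pow_le_pow_left₀ (by norm_num) h1 4
  have e2 := pow_le_pow_left₀ (by norm_num) h2 4
  rw [show (4 : ℝ) = ((4 : ℕ) : ℝ) by norm_num, Real.rpow_natCast]
  norm_num at e1 e2 ⊢
  linarith

end Pool.Agent.Results.MP_a85856_gt.Grid
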